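import Pool.Agent.Helper96.SE.Stmts
import Pool.Agent.Helper52.Grid.Eval

set_option autoImplicit false

namespace Pool.Agent.Helper96.SE

open Pool.Agent.Helper52.Grid

/-! ### local used edges -/

def cn2H (ρ : RK) (f g : Bool) (r x : ℕ) : Bool :=
  if hE ρ r x = 0 then true else if hE ρ r x = 2 then hOE ρ f g r x else false

def cn2V (ρ : RK) (e : ℕ) (f g : Bool) (r x : ℕ) : Bool :=
  if vE ρ e r x = 0 then true else if vE ρ e r x = 2 then vOE ρ f g r x else false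

def cn2PH (f g : Bool) (x y : ℕ) : Bool :=
  if y < 6 then cn2H .U f false y x else cn2H .L g f (y - 6) x

def cn2PV (e : ℕ) (f g : Bool) (x y : ℕ) : Bool :=
  if y < 6 then cn2V .U e f false y x else cn2V .L (e + 1) g f (y - 6) x

def cn2NH (f : Bool) (x y : ℕ) : Bool := cn2H .N f false y x

def cn2NV (e : ℕ) (f : Bool) (x y : ℕ) : Bool := cn2V .N e f false y x

def cn2Ph (x y : ℕ) : ℕ := if y < 6 then hE .U y x else hE .L (y - 6) x

def cn2Pv (e x y : ℕ) : ℕ := if y < 6 then vE .U e y x else vE .L (e + 1) (y - 6) x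

/-- local vertices -/
def cn2Vt (h v : ℕ → ℕ → ℕ) (x y : ℕ) : Bool :=
  Nat.beq (h x y) 0 || (Nat.blt 0 x && Nat.beq (h (x - 1) y) 0) || Nat.beq (v x y) 0 ||
    (Nat.blt 0 y && Nat.beq (v x (y - 1)) 0)

/-! ### paths -/

def cn2Step (hu vu : ℕ → ℕ → Bool) (W : ℕ) (p q : ℕ × ℕ) : Bool :=
  Nat.blt p.2 W && Nat.blt q.2 W &&
    ((Nat.beq q.1 (p.1 + 1) && Nat.beq q.2 p.2 && hu p.1 p.2) ||
      (Nat.beq p.1 (q.1 + 1) && Nat.beq p.2 q.2 && hu q.1 q.2) ||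
      (Nat.beq q.1 p.1 && Nat.beq q.2 (p.2 + 1) && vu p.1 p.2) ||
      (Nat.beq p.1 q.1 && Nat.beq p.2 (q.2 + 1) && vu q.1 q.2))

def cn2Ch (hu vu : ℕ → ℕ → Bool) (W : ℕ) : List (ℕ × ℕ) → Bool
  | [] => true
  | p :: l => (match l with
      | [] => true
      | q :: _ => cn2Step hu vu W p q) && cn2Ch hu vu W l

def cn2El (l : List (ℕ × ℕ)) (x y : ℕ) : Bool := l.any fun p => Nat.beq p.1 x && Nat.beq p.2 y

def cn2Ck (hu vu : ℕ → ℕ → Bool) (h v : ℕ → ℕ → ℕ) (W : ℕ) (an : List (ℕ × ℕ))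
    (ps : List (List (ℕ × ℕ))) : Bool :=
  (ps.all fun l => cn2Ch hu vu W l && an.any fun p => cn2El l p.1 p.2) &&
    (List.range 19).all fun x => (List.range W).all fun y =>
      !cn2Vt h v x y || ps.any fun l => cn2El l x y

section
variable {S' : ℕ × ℕ → Prop} {hu vu : ℕ → ℕ → Bool} {W : ℕ}

theorem cn2_step (hh : ∀ x y, y < W → hu x y = true → (S' (x, y) ↔ S' (x + 1, y)))
    (hv : ∀ x y, y < W → vu x y = true → (S' (x, y) ↔ S' (x, y + 1))) {p q : ℕ × ℕ}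
    (h : cn2Step hu vu W p q = true) : S' p ↔ S' q := by
  obtain ⟨p1, p2⟩ := p
  obtain ⟨q1, q2⟩ := q
  simp only [cn2Step, Bool.and_eq_true, Bool.or_eq_true, Nat.beq_eq, Nat.blt_eq] at h
  obtain ⟨⟨h1, h2⟩, ((h3 | h3) | h3) | h3⟩ := h
  · obtain ⟨⟨rfl, rfl⟩, h4⟩ := h3
    exact hh _ _ h1 h4
  · obtain ⟨⟨rfl, rfl⟩, h4⟩ := h3
    exact (hh _ _ h2 h4).symm
  · obtain ⟨⟨rfl, rfl⟩, h4⟩ := h3
    exact hv _ _ h1 h4
  · obtain ⟨⟨rfl, rfl⟩, h4⟩ := h3
    exact (hv _ _ h2 h4).symm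

theorem cn2_ch (hh : ∀ x y, y < W → hu x y = true → (S' (x, y) ↔ S' (x + 1, y)))
    (hv : ∀ x y, y < W → vu x y = true → (S' (x, y) ↔ S' (x, y + 1))) :
    ∀ (l : List (ℕ × ℕ)) (p : ℕ × ℕ), cn2Ch hu vu W (p :: l) = true → ∀ q ∈ p :: l,
      (S' p ↔ S' q) := by
  intro l
  induction l with
  | nil =>
    intro p _ q hq
    rw [List.mem_singleton] at hq
    rw [hq]
  | cons p' l ih =>
    intro p h q hq
    have h1 : cn2Step hu vu W p p' = true ∧ cn2Ch hu vu W (p' :: l) = true := by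
      have h2 : (cn2Step hu vu W p p' && cn2Ch hu vu W (p' :: l)) = true := h
      rwa [Bool.and_eq_true] at h2
    rcases List.mem_cons.1 hq with hq | hq
    · rw [hq]
    · exact (cn2_step hh hv h1.1).trans (ih p' h1.2 q hq)

theorem cn2_ch' (hh : ∀ x y, y < W → hu x y = true → (S' (x, y) ↔ S' (x + 1, y)))
    (hv : ∀ x y, y < W → vu x y = true → (S' (x, y) ↔ S' (x, y + 1))) (l : List (ℕ × ℕ))
    (h : cn2Ch hu vu W l = true) (p q : ℕ × ℕ) (hp : p ∈ l) (hq : q ∈ l) : S' p ↔ S' q := by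
  cases l with
  | nil => simp at hp
  | cons a l => exact (cn2_ch hh hv l a h p hp).symm.trans (cn2_ch hh hv l a h q hq)

theorem cn2_el {l : List (ℕ × ℕ)} {x y : ℕ} (h : cn2El l x y = true) : (x, y) ∈ l := by
  unfold cn2El at h
  rw [List.any_eq_true] at h
  obtain ⟨⟨p1, p2⟩, hp, h1⟩ := h
  simp only [Bool.and_eq_true, Nat.beq_eq] at h1
  obtain ⟨rfl, rfl⟩ := h1
  exact hp

theorem cn2_ck {h v : ℕ → ℕ → ℕ} {an : List (ℕ × ℕ)} {ps : List (List (ℕ × ℕ))}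
    (hc : cn2Ck hu vu h v W an ps = true)
    (hh : ∀ x y, y < W → hu x y = true → (S' (x, y) ↔ S' (x + 1, y)))
    (hv : ∀ x y, y < W → vu x y = true → (S' (x, y) ↔ S' (x, y + 1))) (Q : Prop)
    (ha : ∀ p ∈ an, (S' p ↔ Q)) (x y : ℕ) (hx : x < 19) (hy : y < W)
    (hV : cn2Vt h v x y = true) : S' (x, y) ↔ Q := by
  unfold cn2Ck at hc
  rw [Bool.and_eq_true, List.all_eq_true, List.all_eq_true] at hc
  obtain ⟨h1, h2⟩ := hc
  have h3 := h2 x (List.mem_range.2 hx)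
  rw [List.all_eq_true] at h3
  have h4 := h3 y (List.mem_range.2 hy)
  rw [hV, Bool.not_true, Bool.false_or, List.any_eq_true] at h4
  obtain ⟨l, hl, hel⟩ := h4
  have h5 := h1 l hl
  rw [Bool.and_eq_true, List.any_eq_true] at h5
  obtain ⟨h6, ⟨p, hp, h7⟩⟩ := h5
  rw [cn2_ch' hh hv l h6 (x, y) (p.1, p.2) (cn2_el hel) (cn2_el h7)]
  exact ha p hp

end

/-! ### data -/

def cn2P000 : List (List (ℕ × ℕ)) :=
  [[(0, 1), (1, 1), (1, 2), (0, 2), (0, 3)],
  [(0, 5), (1, 5), (1, 4), (1, 3), (2, 3), (2, 4), (2, 5), (3, 5), (4, 5), (4, 4), (5, 4), (5,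
   3), (4, 3), (3, 3), (3, 2), (2, 2), (2, 1), (3, 1), (4, 1), (4, 2), (5, 2), (6, 2), (6, 1),
   (7, 1), (8, 1), (9, 1), (10, 1), (11, 1), (12, 1), (13, 1), (14, 1), (15, 1), (16, 1), (17,
   1), (17, 2), (17, 3), (16, 3), (15, 3), (14, 3), (13, 3), (12, 3), (11, 3), (10, 3), (9, 3),
   (8, 3), (7, 3), (6, 3), (6, 4), (7, 4), (8, 4), (9, 4), (10, 4), (10, 5), (11, 5), (12, 5),
   (13, 5), (14, 5), (15, 5), (16, 5), (16, 4), (17, 4), (18, 4), (18, 3), (18, 2), (18, 1),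
   (18, 0)],
  [(0, 7), (1, 7), (1, 8), (0, 8), (0, 9)],
  [(0, 11), (1, 11), (1, 10), (1, 9), (2, 9), (2, 10), (2, 11), (3, 11), (4, 11), (5, 11), (5,
   10), (5, 9), (6, 9), (6, 8), (7, 8), (7, 9), (7, 10), (7, 11), (8, 11), (9, 11), (10, 11),
   (11, 11), (12, 11), (13, 11), (13, 10), (13, 9), (13, 8), (12, 8), (12, 9), (11, 9), (10,
   9), (9, 9), (8, 9), (8, 8), (8, 7), (8, 6), (7, 6), (7, 7), (6, 7), (5, 7), (5, 8), (4, 8),
   (4, 9), (3, 9), (3, 8), (2, 8), (2, 7), (3, 7), (4, 7), (4, 6), (5, 6), (5, 5), (6, 5), (7,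
   5), (8, 5), (9, 5), (9, 6), (9, 7), (10, 7), (11, 7), (12, 7), (13, 7), (14, 7), (15, 7),
   (16, 7), (17, 7), (17, 8), (17, 9), (16, 9), (15, 9), (15, 8), (14, 8), (14, 9), (14, 10),
   (14, 11), (15, 11), (16, 11), (16, 10), (17, 10), (18, 10), (18, 11)]]

def cn2P100 : List (List (ℕ × ℕ)) :=
  [[(0, 1), (1, 1), (1, 2), (0, 2), (0, 3)],
  [(0, 5), (1, 5), (1, 4), (1, 3), (2, 3), (2, 4), (2, 5), (3, 5), (4, 5), (4, 4), (5, 4), (5,
   3), (4, 3), (3, 3), (3, 2), (2, 2), (2, 1), (3, 1), (4, 1), (4, 2), (5, 2), (6, 2), (6, 1),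
   (7, 1), (8, 1), (9, 1), (10, 1), (11, 1), (12, 1), (13, 1), (14, 1), (15, 1), (16, 1), (17,
   1), (17, 2), (17, 3), (16, 3), (15, 3), (14, 3), (13, 3), (12, 3), (11, 3), (10, 3), (9, 3),
   (8, 3), (7, 3), (6, 3), (6, 4), (7, 4), (8, 4), (9, 4), (10, 4), (10, 5), (11, 5), (12, 5),
   (13, 5), (14, 5), (15, 5), (16, 5), (16, 4), (17, 4), (18, 4), (18, 5), (18, 6), (18, 7),
   (18, 8), (18, 9), (18, 10), (17, 10), (16, 10), (16, 11), (15, 11), (14, 11), (14, 10), (14,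
   9), (14, 8), (15, 8), (15, 9), (16, 9), (17, 9), (17, 8), (17, 7), (16, 7), (15, 7), (14,
   7), (13, 7), (12, 7), (11, 7), (10, 7), (9, 7), (9, 6), (9, 5), (8, 5), (7, 5), (6, 5), (5,
   5), (5, 6), (4, 6), (4, 7), (3, 7), (2, 7), (2, 8), (3, 8), (3, 9), (4, 9), (4, 8), (5, 8),
   (5, 7), (6, 7), (7, 7), (7, 6), (8, 6), (8, 7), (8, 8), (8, 9), (9, 9), (10, 9), (11, 9),
   (12, 9), (12, 8), (13, 8), (13, 9), (13, 10), (13, 11), (12, 11), (11, 11), (10, 11), (9,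
   11), (8, 11), (7, 11), (7, 10), (7, 9), (7, 8), (6, 8), (6, 9), (5, 9), (5, 10), (5, 11),
   (4, 11), (3, 11), (2, 11), (2, 10), (2, 9), (1, 9), (1, 10), (1, 11), (0, 11)],
  [(0, 7), (1, 7), (1, 8), (0, 8), (0, 9)]]

def cn2P001 : List (List (ℕ × ℕ)) :=
  [[(0, 1), (1, 1), (1, 2), (0, 2), (0, 3)],
  [(0, 5), (1, 5), (1, 4), (1, 3), (2, 3), (2, 4), (2, 5), (3, 5), (4, 5), (4, 4), (5, 4), (5,
   3), (4, 3), (3, 3), (3, 2), (2, 2), (2, 1), (3, 1), (4, 1), (4, 2), (5, 2), (6, 2), (6, 1),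
   (7, 1), (8, 1), (9, 1), (10, 1), (11, 1), (12, 1), (13, 1), (14, 1), (15, 1), (16, 1), (17,
   1), (17, 2), (17, 3), (16, 3), (15, 3), (14, 3), (13, 3), (12, 3), (11, 3), (10, 3), (9, 3),
   (8, 3), (7, 3), (6, 3), (6, 4), (7, 4), (8, 4), (9, 4), (10, 4), (10, 5), (11, 5), (12, 5),
   (13, 5), (14, 5), (15, 5), (16, 5), (16, 4), (17, 4), (18, 4), (18, 3), (18, 2), (18, 1),
   (18, 0)],
  [(0, 7), (1, 7), (2, 7), (3, 7), (4, 7), (4, 6), (5, 6), (5, 5), (6, 5), (7, 5), (8, 5), (9,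
   5), (9, 6), (9, 7), (10, 7), (11, 7), (12, 7), (13, 7), (13, 8), (12, 8), (12, 9), (11, 9),
   (10, 9), (9, 9), (8, 9), (8, 8), (8, 7), (8, 6), (7, 6), (7, 7), (6, 7), (5, 7), (5, 8), (4,
   8), (4, 9), (3, 9), (3, 8), (2, 8), (2, 9), (2, 10), (2, 11), (3, 11), (4, 11), (5, 11), (5,
   10), (5, 9), (6, 9), (6, 8), (7, 8), (7, 9), (7, 10), (7, 11), (8, 11), (9, 11), (10, 11),
   (11, 11), (12, 11), (13, 11), (13, 10), (13, 9), (14, 9), (14, 10), (14, 11), (15, 11), (16,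
   11), (16, 10), (16, 9), (15, 9), (15, 8), (14, 8), (14, 7), (15, 7), (16, 7), (17, 7), (17,
   8), (17, 9), (17, 10), (18, 10), (18, 11)],
  [(0, 9), (0, 8), (1, 8), (1, 9), (1, 10), (1, 11), (0, 11)]]

def cn2P101 : List (List (ℕ × ℕ)) :=
  [[(0, 1), (1, 1), (1, 2), (0, 2), (0, 3)],
  [(0, 5), (1, 5), (1, 4), (1, 3), (2, 3), (2, 4), (2, 5), (3, 5), (4, 5), (4, 4), (5, 4), (5,
   3), (4, 3), (3, 3), (3, 2), (2, 2), (2, 1), (3, 1), (4, 1), (4, 2), (5, 2), (6, 2), (6, 1),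
   (7, 1), (8, 1), (9, 1), (10, 1), (11, 1), (12, 1), (13, 1), (14, 1), (15, 1), (16, 1), (17,
   1), (17, 2), (17, 3), (16, 3), (15, 3), (14, 3), (13, 3), (12, 3), (11, 3), (10, 3), (9, 3),
   (8, 3), (7, 3), (6, 3), (6, 4), (7, 4), (8, 4), (9, 4), (10, 4), (10, 5), (11, 5), (12, 5),
   (13, 5), (14, 5), (15, 5), (16, 5), (16, 4), (17, 4), (18, 4), (18, 5), (18, 6), (18, 7),
   (18, 8), (18, 9), (18, 10), (17, 10), (17, 9), (17, 8), (17, 7), (16, 7), (15, 7), (14, 7),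
   (14, 8), (15, 8), (15, 9), (16, 9), (16, 10), (16, 11), (15, 11), (14, 11), (14, 10), (14,
   9), (13, 9), (13, 10), (13, 11), (12, 11), (11, 11), (10, 11), (9, 11), (8, 11), (7, 11),
   (7, 10), (7, 9), (7, 8), (6, 8), (6, 9), (5, 9), (5, 10), (5, 11), (4, 11), (3, 11), (2,
   11), (2, 10), (2, 9), (2, 8), (3, 8), (3, 9), (4, 9), (4, 8), (5, 8), (5, 7), (6, 7), (7,
   7), (7, 6), (8, 6), (8, 7), (8, 8), (8, 9), (9, 9), (10, 9), (11, 9), (12, 9), (12, 8), (13,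
   8), (13, 7), (12, 7), (11, 7), (10, 7), (9, 7), (9, 6), (9, 5), (8, 5), (7, 5), (6, 5), (5,
   5), (5, 6), (4, 6), (4, 7), (3, 7), (2, 7), (1, 7), (0, 7)],
  [(0, 9), (0, 8), (1, 8), (1, 9), (1, 10), (1, 11), (0, 11)]]

def cn2P010 : List (List (ℕ × ℕ)) :=
  [[(0, 1), (1, 1), (2, 1), (3, 1), (4, 1), (4, 2), (5, 2), (5, 3), (4, 3), (3, 3), (3, 2), (2,
   2), (2, 3), (2, 4), (2, 5), (3, 5), (4, 5), (4, 4), (5, 4), (5, 5), (6, 5), (6, 4), (7, 4),
   (8, 4), (9, 4), (10, 4), (10, 5), (11, 5), (12, 5), (13, 5), (14, 5), (15, 5), (16, 5), (16,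
   4), (16, 3), (15, 3), (14, 3), (13, 3), (12, 3), (11, 3), (10, 3), (9, 3), (8, 3), (7, 3),
   (6, 3), (6, 2), (6, 1), (7, 1), (8, 1), (9, 1), (10, 1), (11, 1), (12, 1), (13, 1), (14, 1),
   (15, 1), (16, 1), (17, 1), (17, 2), (17, 3), (17, 4), (18, 4), (18, 3), (18, 2), (18, 1),
   (18, 0)],
  [(0, 3), (0, 2), (1, 2), (1, 3), (1, 4), (1, 5), (0, 5)],
  [(0, 7), (1, 7), (1, 8), (0, 8), (0, 9)],
  [(0, 11), (1, 11), (1, 10), (1, 9), (2, 9), (2, 10), (2, 11), (3, 11), (4, 11), (5, 11), (5,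
   10), (5, 9), (6, 9), (6, 8), (5, 8), (4, 8), (4, 9), (3, 9), (3, 8), (2, 8), (2, 7), (3, 7),
   (4, 7), (4, 6), (5, 6), (5, 7), (6, 7), (7, 7), (7, 8), (7, 9), (7, 10), (7, 11), (8, 11),
   (9, 11), (10, 11), (11, 11), (12, 11), (13, 11), (13, 10), (13, 9), (13, 8), (12, 8), (12,
   9), (11, 9), (10, 9), (9, 9), (8, 9), (8, 8), (8, 7), (8, 6), (7, 6), (7, 5), (8, 5), (9,
   5), (9, 6), (9, 7), (10, 7), (11, 7), (12, 7), (13, 7), (14, 7), (15, 7), (16, 7), (17, 7),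
   (17, 8), (17, 9), (16, 9), (15, 9), (15, 8), (14, 8), (14, 9), (14, 10), (14, 11), (15, 11),
   (16, 11), (16, 10), (17, 10), (18, 10), (18, 11)]]

def cn2P110 : List (List (ℕ × ℕ)) :=
  [[(0, 1), (1, 1), (2, 1), (3, 1), (4, 1), (4, 2), (5, 2), (5, 3), (4, 3), (3, 3), (3, 2), (2,
   2), (2, 3), (2, 4), (2, 5), (3, 5), (4, 5), (4, 4), (5, 4), (5, 5), (6, 5), (6, 4), (7, 4),
   (8, 4), (9, 4), (10, 4), (10, 5), (11, 5), (12, 5), (13, 5), (14, 5), (15, 5), (16, 5), (16,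
   4), (16, 3), (15, 3), (14, 3), (13, 3), (12, 3), (11, 3), (10, 3), (9, 3), (8, 3), (7, 3),
   (6, 3), (6, 2), (6, 1), (7, 1), (8, 1), (9, 1), (10, 1), (11, 1), (12, 1), (13, 1), (14, 1),
   (15, 1), (16, 1), (17, 1), (17, 2), (17, 3), (17, 4), (18, 4), (18, 5), (18, 6), (18, 7),
   (18, 8), (18, 9), (18, 10), (17, 10), (16, 10), (16, 11), (15, 11), (14, 11), (14, 10), (14,
   9), (14, 8), (15, 8), (15, 9), (16, 9), (17, 9), (17, 8), (17, 7), (16, 7), (15, 7), (14,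
   7), (13, 7), (12, 7), (11, 7), (10, 7), (9, 7), (9, 6), (9, 5), (8, 5), (7, 5), (7, 6), (8,
   6), (8, 7), (8, 8), (8, 9), (9, 9), (10, 9), (11, 9), (12, 9), (12, 8), (13, 8), (13, 9),
   (13, 10), (13, 11), (12, 11), (11, 11), (10, 11), (9, 11), (8, 11), (7, 11), (7, 10), (7,
   9), (7, 8), (7, 7), (6, 7), (5, 7), (5, 6), (4, 6), (4, 7), (3, 7), (2, 7), (2, 8), (3, 8),
   (3, 9), (4, 9), (4, 8), (5, 8), (6, 8), (6, 9), (5, 9), (5, 10), (5, 11), (4, 11), (3, 11),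
   (2, 11), (2, 10), (2, 9), (1, 9), (1, 10), (1, 11), (0, 11)],
  [(0, 3), (0, 2), (1, 2), (1, 3), (1, 4), (1, 5), (0, 5)],
  [(0, 7), (1, 7), (1, 8), (0, 8), (0, 9)]]

def cn2N00 : List (List (ℕ × ℕ)) :=
  [[(0, 1), (1, 1), (2, 1), (3, 1), (4, 1), (5, 1), (6, 1), (7, 1), (8, 1), (9, 1), (10, 1),
   (11, 1), (12, 1), (13, 1), (14, 1), (15, 1), (16, 1), (17, 1), (17, 2), (17, 3), (16, 3),
   (15, 3), (14, 3), (13, 3), (12, 3), (11, 3), (10, 3), (9, 3), (8, 3), (7, 3), (6, 3), (5,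
   3), (4, 3), (3, 3), (2, 3), (1, 3), (0, 3)],
  [(0, 5), (1, 5), (2, 5), (3, 5), (4, 5), (5, 5), (6, 5), (7, 5), (8, 5), (9, 5), (10, 5),
   (11, 5), (12, 5), (13, 5), (14, 5), (15, 5), (16, 5), (16, 4), (17, 4), (18, 4), (18, 3),
   (18, 2), (18, 1), (18, 0)]]

def cn2N10 : List (List (ℕ × ℕ)) :=
  [[(0, 1), (1, 1), (2, 1), (3, 1), (4, 1), (5, 1), (6, 1), (7, 1), (8, 1), (9, 1), (10, 1),
   (11, 1), (12, 1), (13, 1), (14, 1), (15, 1), (16, 1), (17, 1), (17, 2), (17, 3), (16, 3),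
   (15, 3), (14, 3), (13, 3), (12, 3), (11, 3), (10, 3), (9, 3), (8, 3), (7, 3), (6, 3), (5,
   3), (4, 3), (3, 3), (2, 3), (1, 3), (0, 3)],
  [(0, 5), (1, 5), (2, 5), (3, 5), (4, 5), (5, 5), (6, 5), (7, 5), (8, 5), (9, 5), (10, 5),
   (11, 5), (12, 5), (13, 5), (14, 5), (15, 5), (16, 5), (16, 4), (17, 4), (18, 4), (18, 5)]]

def cn2N01 : List (List (ℕ × ℕ)) :=
  [[(0, 1), (1, 1), (2, 1), (3, 1), (4, 1), (5, 1), (6, 1), (7, 1), (8, 1), (9, 1), (10, 1),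
   (11, 1), (12, 1), (13, 1), (14, 1), (15, 1), (16, 1), (17, 1), (17, 2), (17, 3), (17, 4),
   (18, 4), (18, 3), (18, 2), (18, 1), (18, 0)],
  [(0, 3), (1, 3), (2, 3), (3, 3), (4, 3), (5, 3), (6, 3), (7, 3), (8, 3), (9, 3), (10, 3),
   (11, 3), (12, 3), (13, 3), (14, 3), (15, 3), (16, 3), (16, 4), (16, 5), (15, 5), (14, 5),
   (13, 5), (12, 5), (11, 5), (10, 5), (9, 5), (8, 5), (7, 5), (6, 5), (5, 5), (4, 5), (3, 5),
   (2, 5), (1, 5), (0, 5)]]

def cn2N11 : List (List (ℕ × ℕ)) :=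
  [[(0, 1), (1, 1), (2, 1), (3, 1), (4, 1), (5, 1), (6, 1), (7, 1), (8, 1), (9, 1), (10, 1),
   (11, 1), (12, 1), (13, 1), (14, 1), (15, 1), (16, 1), (17, 1), (17, 2), (17, 3), (17, 4),
   (18, 4), (18, 5)],
  [(0, 3), (1, 3), (2, 3), (3, 3), (4, 3), (5, 3), (6, 3), (7, 3), (8, 3), (9, 3), (10, 3),
   (11, 3), (12, 3), (13, 3), (14, 3), (15, 3), (16, 3), (16, 4), (16, 5), (15, 5), (14, 5),
   (13, 5), (12, 5), (11, 5), (10, 5), (9, 5), (8, 5), (7, 5), (6, 5), (5, 5), (4, 5), (3, 5),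
   (2, 5), (1, 5), (0, 5)]]

def cn2AP : List (ℕ × ℕ) :=
  [(0, 1), (0, 3), (0, 5), (18, 4), (0, 7), (0, 9), (0, 11), (18, 10)]

def cn2AN : List (ℕ × ℕ) := [(0, 1), (0, 3), (0, 5), (18, 4)]

theorem cn2_ckP (e : ℕ) (he : e < 2) (f g : Bool) (hfg : ¬ (f = true ∧ g = true)) :
    ∃ ps, cn2Ck (cn2PH f g) (cn2PV e f g) cn2Ph (cn2Pv e) 12 cn2AP ps = true := by
  obtain rfl | rfl : e = 0 ∨ e = 1 := by omega
  · cases f <;> cases g
    · exact ⟨cn2P000, by decide +kernel⟩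
    · exact ⟨cn2P001, by decide +kernel⟩
    · exact ⟨cn2P010, by decide +kernel⟩
    · exact absurd ⟨rfl, rfl⟩ hfg
  · cases f <;> cases g
    · exact ⟨cn2P100, by decide +kernel⟩
    · exact ⟨cn2P101, by decide +kernel⟩
    · exact ⟨cn2P110, by decide +kernel⟩
    · exact absurd ⟨rfl, rfl⟩ hfg

theorem cn2_ckN (e : ℕ) (he : e < 2) (f : Bool) :
    ∃ ps, cn2Ck (cn2NH f) (cn2NV e f) (fun x y => hE .N y x) (fun x y => vE .N e y x) 6 cn2AN
      ps = true := by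
  obtain rfl | rfl : e = 0 ∨ e = 1 := by omega
  · cases f
    · exact ⟨cn2N00, by decide +kernel⟩
    · exact ⟨cn2N01, by decide +kernel⟩
  · cases f
    · exact ⟨cn2N10, by decide +kernel⟩
    · exact ⟨cn2N11, by decide +kernel⟩

/-! ### from the lattice to the local graph -/

theorem cn2_vR (i r x : ℕ) : vR i r x = vR (i % 2) r x := by
  unfold vR
  simp only [Nat.mod_mod]

theorem cn2_vE (ρ : RK) (i r x : ℕ) : vE ρ i r x = vE ρ (i % 2) r x := by
  unfold vE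
  rw [cn2_vR i]

theorem cn2_vE' (ρ : RK) (i r x : ℕ) : vE ρ (i + 1) r x = vE ρ (i % 2 + 1) r x := by
  rw [cn2_vE ρ (i + 1), cn2_vE ρ (i % 2 + 1)]
  congr 1
  omega

theorem cn2_hOE (ρ : RK) (hρ : ρ ≠ .L) (f g : Bool) (r x : ℕ) :
    hOE ρ f g r x = hOE ρ f false r x := by
  cases ρ
  · rfl
  · rfl
  · exact absurd rfl hρ

theorem cn2_vOE (ρ : RK) (hρ : ρ ≠ .L) (f g : Bool) (r x : ℕ) :
    vOE ρ f g r x = vOE ρ f false r x := by
  cases ρ
  · rfl
  · rfl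
  · exact absurd rfl hρ

theorem cn2_hE_far (ρ : RK) (r x : ℕ) (hx : 18 ≤ x) : hE ρ r x ≠ 0 := by
  unfold hE
  rw [if_neg (by omega), if_neg (by omega), if_neg (by omega)]
  obtain ⟨y, rfl⟩ : ∃ y, x = 18 + y := ⟨x - 18, by omega⟩
  have h1 : 18 + y - 16 = y + 2 := by omega
  rw [h1]
  unfold hR
  split <;> simp_all

theorem cn2_vE_far (ρ : RK) (i r x : ℕ) (hx : 19 ≤ x) : vE ρ i r x ≠ 0 := by
  unfold vE
  rw [if_neg (by omega), if_neg (by omega), if_neg (by omega)]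
  obtain ⟨y, rfl⟩ : ∃ y, x = 19 + y := ⟨x - 19, by omega⟩
  have h1 : 19 + y - 16 = y + 3 := by omega
  rw [h1]
  unfold vR
  split <;> simp_all

/-- the edge leaving a row below -/
theorem cn2_vE_5 (ρ : RK) (hρ : ρ ≠ .U) (i x : ℕ) (h : vE ρ i 5 x = 0) : x = 18 ∧ i % 2 = 1 := by
  rcases Nat.lt_or_ge x 19 with hx | hx
  · rw [cn2_vE] at h
    have key : ∀ (b : Bool), ∀ e < 2, ∀ x < 19,
        vE (if b then RK.N else RK.L) e 5 x = 0 → x = 18 ∧ e = 1 := by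
      decide +kernel
    have h2 := Nat.mod_lt i (show 0 < 2 by norm_num)
    cases ρ
    · exact key true (i % 2) h2 x hx h
    · exact absurd rfl hρ
    · exact key false (i % 2) h2 x hx h
  · exact absurd h (cn2_vE_far ρ i 5 x hx)

theorem cn2_hCell3 (κ : Kind) (r : ℕ) (hr : r < 6) (h : hCell κ r 3 = 0) :
    r = 1 ∨ r = 3 ∨ r = 5 := by
  cases κ <;> interval_cases r <;> simp_all [hCell]

theorem cn2_left {s : List Sub} {M i r : ℕ} {T : ℕ → Bool} (hi : i < 2 * M + 1) (hr : r < 6)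
    (h : hN s M T (4 + 4 * s.length) (4 + 6 * i + r) = 0) : r = 1 ∨ r = 3 ∨ r = 5 := by
  rw [hN_old (by omega)] at h
  rcases Nat.eq_zero_or_pos s.length with hs | hs
  · rw [hC_left hi hr (by omega) rfl, hs] at h
    interval_cases r <;> simp_all [hL]
  · rw [hC_cell (k := s.length - 1) (j := 3) (by omega) hi hr (by omega) (by omega) rfl] at h
    exact cn2_hCell3 _ r hr h

theorem cn2_rkU {T : ℕ → Bool} {i : ℕ} : rk T i = .U ↔ T i = true := by
  unfold rk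
  split_ifs <;> simp_all

theorem cn2_rkL {T : ℕ → Bool} {i : ℕ} (h : rk T i = .L) : i ≠ 0 ∧ T (i - 1) = true := by
  unfold rk at h
  split_ifs at h with h1 h2
  exact h2

/-- classification of the vertices -/
theorem cn2_vert {s : List Sub} {M : ℕ} {T : ℕ → Bool} (hT : VT M T) {x i r : ℕ} (hr : r < 6)
    (h : Vert (hN s M T) (vN s M T) (5 + 4 * s.length + x, 4 + 6 * i + r)) :
    i < 2 * M + 1 ∧ x < 19 ∧ ((x = 0 ∧ (r = 1 ∨ r = 3 ∨ r = 5)) ∨ hE (rk T i) r x = 0 ∨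
      (x ≠ 0 ∧ hE (rk T i) r (x - 1) = 0) ∨ vE (rk T i) i r x = 0 ∨
      (r ≠ 0 ∧ vE (rk T i) i (r - 1) x = 0) ∨
      (r = 0 ∧ i ≠ 0 ∧ rk T (i - 1) = .U ∧ vE .U (i - 1) 5 x = 0)) := by
  have hi : i < 2 * M + 1 := by
    by_contra hi
    have hb : 4 + 6 * (2 * M + 1) ≤ 4 + 6 * i + r := by omega
    rcases h with h | h | h | h
    · rw [hN_bot hb] at h
      exact absurd h (by norm_num)
    · rw [hN_bot hb] at h
      exact absurd h (by norm_num)
    · rw [vN_bot hb] at h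
      exact absurd h (by norm_num)
    · rcases Nat.lt_or_ge (4 + 6 * (2 * M + 1)) (4 + 6 * i + r) with h1 | h1
      · rw [vN_bot (show 4 + 6 * (2 * M + 1) ≤ 4 + 6 * i + r - 1 by omega)] at h
        exact absurd h (by norm_num)
      · rw [vN_row (i := 2 * M) (r := 5) (x := x) (by omega) (by omega) rfl (by simp only; omega)] at h
        have h2 : rk T (2 * M) ≠ .U := by
          intro h2
          have := hT.lt _ (cn2_rkU.1 h2)
          omega
        have := (cn2_vE_5 _ h2 _ _ h).2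
        omega
  have hcases : (x = 0 ∧ (r = 1 ∨ r = 3 ∨ r = 5)) ∨ hE (rk T i) r x = 0 ∨
      (x ≠ 0 ∧ hE (rk T i) r (x - 1) = 0) ∨ vE (rk T i) i r x = 0 ∨
      (r ≠ 0 ∧ vE (rk T i) i (r - 1) x = 0) ∨
      (r = 0 ∧ i ≠ 0 ∧ rk T (i - 1) = .U ∧ vE .U (i - 1) 5 x = 0) := by
    rcases h with h | h | h | h
    · rw [hN_row hi hr rfl rfl] at h
      exact Or.inr (Or.inl h)
    · rcases Nat.eq_zero_or_pos x with hx | hx
      · subst hx
        left
        refine ⟨rfl, ?_⟩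
        have e1 : 5 + 4 * s.length + 0 - 1 = 4 + 4 * s.length := by omega
        simp only [e1] at h
        exact cn2_left hi hr h
      · rw [hN_row (x := x - 1) hi hr (by simp only; omega) rfl] at h
        exact Or.inr (Or.inr (Or.inl ⟨by omega, h⟩))
    · rw [vN_row hi hr rfl rfl] at h
      exact Or.inr (Or.inr (Or.inr (Or.inl h)))
    · rcases Nat.eq_zero_or_pos r with hr0 | hr0
      · subst hr0
        have hend : x = 18 ∧ i % 2 = 0 → vE (rk T i) i 0 x = 0 := by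
          rintro ⟨rfl, h2⟩
          rw [cn2_vE, h2]
          cases rk T i <;> rfl
        rcases Nat.eq_zero_or_pos i with hi0 | hi0
        · subst hi0
          have e1 : 4 + 6 * 0 + 0 - 1 = 3 := rfl
          simp only [e1] at h
          rw [vN_top (by omega) (by omega)] at h
          split_ifs at h with h1
          exact Or.inr (Or.inr (Or.inr (Or.inl (hend ⟨by omega, rfl⟩))))
        · rw [vN_row (i := i - 1) (r := 5) (x := x) (by omega) (by omega) rfl (by simp only; omega)] at h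
          by_cases hU : rk T (i - 1) = .U
          · rw [hU] at h
            exact Or.inr (Or.inr (Or.inr (Or.inr (Or.inr ⟨rfl, by omega, hU, h⟩))))
          · have h2 := cn2_vE_5 _ hU _ _ h
            exact Or.inr (Or.inr (Or.inr (Or.inl (hend ⟨h2.1, by omega⟩))))
      · rw [vN_row (r := r - 1) hi (by omega) rfl (by simp only; omega)] at h
        exact Or.inr (Or.inr (Or.inr (Or.inr (Or.inl ⟨by omega, h⟩))))
  refine ⟨hi, ?_, hcases⟩
  by_contra hx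
  rcases hcases with h | h | h | h | h | h
  · omega
  · exact cn2_hE_far _ _ _ (by omega) h
  · exact cn2_hE_far _ _ _ (by omega) h.2
  · exact cn2_vE_far _ _ _ _ (by omega) h
  · exact cn2_vE_far _ _ _ _ (by omega) h.2
  · exact cn2_vE_far _ _ _ _ (by omega) h.2.2.2

theorem st_CN2 : ST_CN2 := by
  intro s M T a ch hT S hS hanch b hb hx hy
  obtain ⟨X, Y⟩ := b
  simp only at hx hy
  obtain ⟨x, rfl⟩ : ∃ x, X = 5 + 4 * s.length + x := ⟨X - (5 + 4 * s.length), by omega⟩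
  obtain ⟨i, r, hr, rfl⟩ : ∃ i r, r < 6 ∧ Y = 4 + 6 * i + r :=
    ⟨(Y - 4) / 6, (Y - 4) % 6, by omega, by omega⟩
  obtain ⟨hi, hx19, hV⟩ := cn2_vert hT hr hb
  have anch : ∀ i, i < 2 * M + 1 → (S (5 + 4 * s.length + 0, 4 + 6 * i + 1) ↔ S (1, 3)) ∧
      (S (5 + 4 * s.length + 0, 4 + 6 * i + 3) ↔ S (1, 3)) ∧
      (S (5 + 4 * s.length + 0, 4 + 6 * i + 5) ↔ S (1, 3)) ∧
      (S (5 + 4 * s.length + 18, 4 + 6 * i + 4) ↔ S (1, 3)) := by
    intro i hi
    have h := hanch i hi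
    have e1 : 4 + 6 * i + 1 = 5 + 6 * i := by omega
    have e2 : 4 + 6 * i + 3 = 7 + 6 * i := by omega
    have e3 : 4 + 6 * i + 5 = 9 + 6 * i := by omega
    have e4 : 4 + 6 * i + 4 = 8 + 6 * i := by omega
    have e5 : 5 + 4 * s.length + 18 = 23 + 4 * s.length := by omega
    rw [e1, e2, e3, e4, e5]
    exact h
  -- the strands at the left end
  rcases hV with h0 | hV
  · obtain ⟨rfl, h0⟩ := h0
    left
    obtain ⟨a1, a2, a3, _⟩ := anch i hi
    rcases h0 with rfl | rfl | rfl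
    · exact a1
    · exact a2
    · exact a3
  -- the pair with base `i₀`
  have pair : ∀ i₀ y, T i₀ = true → y < 12 → cn2Vt cn2Ph (cn2Pv (i₀ % 2)) x y = true →
      (S (5 + 4 * s.length + x, 4 + 6 * i₀ + y) ↔ S (1, 3)) ∨
        Conf s T a (5 + 4 * s.length + x, 4 + 6 * i₀ + y) := by
    intro i₀ y hTi hy12 hVt
    by_cases hfg : bst s a i₀ s.length = true ∧ bst s a (i₀ + 1) s.length = true
    · right
      exact ⟨i₀, hTi, hfg.1, hfg.2, by simp only; omega, by simp only; omega⟩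
    left
    have hi₀ := hT.lt i₀ hTi
    have hU : rk T i₀ = .U := cn2_rkU.2 hTi
    have hL : rk T (i₀ + 1) = .L := by
      have h1 := hT.sep i₀ hTi
      unfold rk
      rw [if_neg (by rw [h1]; simp), if_pos ⟨by omega, by simpa using hTi⟩]
    obtain ⟨ps, hps⟩ := cn2_ckP (i₀ % 2) (Nat.mod_lt _ (by norm_num)) _ _ hfg
    refine cn2_ck (S' := fun p => S (5 + 4 * s.length + p.1, 4 + 6 * i₀ + p.2)) hps ?_ ?_
      (S (1, 3)) ?_ x y hx19 hy12 hVt
    · intro x y hy h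
      have h1 := hS.1 (5 + 4 * s.length + x) (4 + 6 * i₀ + y)
      have h2 : hNU s M T a ch (5 + 4 * s.length + x) (4 + 6 * i₀ + y) = true := by
        unfold cn2PH at h
        split_ifs at h with hy6
        · rw [hNU_row (i := i₀) (by omega) hy6 rfl rfl, hU]
          unfold cn2H at h
          rw [cn2_hOE _ (by decide)]
          exact h
        · rw [hNU_row (i := i₀ + 1) (r := y - 6) (x := x) (by omega) (by omega) rfl (by omega), hL]
          unfold cn2H at h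
          exact h
      have h3 := h1 h2
      have e1 : 5 + 4 * s.length + (x + 1) = 5 + 4 * s.length + x + 1 := by omega
      simp only [e1]
      exact h3
    · intro x y hy h
      have h1 := hS.2 (5 + 4 * s.length + x) (4 + 6 * i₀ + y)
      have h2 : vNU s M T a ch (5 + 4 * s.length + x) (4 + 6 * i₀ + y) = true := by
        unfold cn2PV at h
        split_ifs at h with hy6
        · rw [vNU_row (i := i₀) (by omega) hy6 rfl rfl, hU, cn2_vE]
          unfold cn2V at h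
          rw [cn2_vOE _ (by decide)]
          exact h
        · rw [vNU_row (i := i₀ + 1) (r := y - 6) (x := x) (by omega) (by omega) rfl (by omega), hL,
            cn2_vE']
          unfold cn2V at h
          exact h
      have h3 := h1 h2
      have e1 : 4 + 6 * i₀ + (y + 1) = 4 + 6 * i₀ + y + 1 := by omega
      simp only [e1]
      exact h3
    · intro p hp
      obtain ⟨a1, a2, a3, a4⟩ := anch i₀ (by omega)
      obtain ⟨b1, b2, b3, b4⟩ := anch (i₀ + 1) hi₀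
      have e1 : 4 + 6 * (i₀ + 1) + 1 = 4 + 6 * i₀ + 7 := by omega
      have e2 : 4 + 6 * (i₀ + 1) + 3 = 4 + 6 * i₀ + 9 := by omega
      have e3 : 4 + 6 * (i₀ + 1) + 5 = 4 + 6 * i₀ + 11 := by omega
      have e4 : 4 + 6 * (i₀ + 1) + 4 = 4 + 6 * i₀ + 10 := by omega
      rw [e1] at b1
      rw [e2] at b2
      rw [e3] at b3
      rw [e4] at b4
      simp only [cn2AP, List.mem_cons, List.not_mem_nil, or_false] at hp
      rcases hp with rfl | rfl | rfl | rfl | rfl | rfl | rfl | rfl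
      exacts [a1, a2, a3, a4, b1, b2, b3, b4]
  rcases hk : rk T i with _ | _ | _
  · -- rows of kind `N`
    left
    rw [hk] at hV
    obtain ⟨ps, hps⟩ := cn2_ckN (i % 2) (Nat.mod_lt _ (by norm_num)) (bst s a i s.length)
    refine cn2_ck (S' := fun p => S (5 + 4 * s.length + p.1, 4 + 6 * i + p.2)) hps ?_ ?_
      (S (1, 3)) ?_ x r hx19 hr ?_
    · intro x y hy h
      have h1 := hS.1 (5 + 4 * s.length + x) (4 + 6 * i + y)
      have h2 : hNU s M T a ch (5 + 4 * s.length + x) (4 + 6 * i + y) = true := by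
        rw [hNU_row (i := i) hi hy rfl rfl, hk, cn2_hOE _ (by decide)]
        exact h
      have h3 := h1 h2
      have e1 : 5 + 4 * s.length + (x + 1) = 5 + 4 * s.length + x + 1 := by omega
      simp only [e1]
      exact h3
    · intro x y hy h
      have h1 := hS.2 (5 + 4 * s.length + x) (4 + 6 * i + y)
      have h2 : vNU s M T a ch (5 + 4 * s.length + x) (4 + 6 * i + y) = true := by
        rw [vNU_row (i := i) hi hy rfl rfl, hk, cn2_vE, cn2_vOE _ (by decide)]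
        exact h
      have h3 := h1 h2
      have e1 : 4 + 6 * i + (y + 1) = 4 + 6 * i + y + 1 := by omega
      simp only [e1]
      exact h3
    · intro p hp
      obtain ⟨a1, a2, a3, a4⟩ := anch i hi
      simp only [cn2AN, List.mem_cons, List.not_mem_nil, or_false] at hp
      rcases hp with rfl | rfl | rfl | rfl
      exacts [a1, a2, a3, a4]
    · unfold cn2Vt
      simp only [Bool.or_eq_true, Bool.and_eq_true, Nat.beq_eq, Nat.blt_eq]
      rcases hV with h | h | h | h | h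
      · exact Or.inl (Or.inl (Or.inl h))
      · exact Or.inl (Or.inl (Or.inr ⟨Nat.pos_of_ne_zero h.1, h.2⟩))
      · rw [cn2_vE] at h
        exact Or.inl (Or.inr h)
      · rw [cn2_vE] at h
        exact Or.inr ⟨Nat.pos_of_ne_zero h.1, h.2⟩
      · exfalso
        have h1 := cn2_rkU.1 h.2.2.1
        have h2 : rk T i = .L := by
          have h3 := hT.sep _ h1
          rw [Nat.sub_add_cancel (Nat.pos_of_ne_zero h.2.1)] at h3
          unfold rk
          rw [if_neg (by rw [h3]; simp), if_pos ⟨h.2.1, h1⟩]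
        rw [hk] at h2
        exact absurd h2 (by decide)
  · -- upper rows
    rw [hk] at hV
    refine pair i r (cn2_rkU.1 hk) (by omega) ?_
    have hP : ∀ x, cn2Ph x r = hE .U r x := fun x => if_pos hr
    have hPv : ∀ x r', r' < 6 → cn2Pv (i % 2) x r' = vE .U i r' x := fun x r' hr' => by
      rw [cn2_vE]
      exact if_pos hr'
    unfold cn2Vt
    simp only [Bool.or_eq_true, Bool.and_eq_true, Nat.beq_eq, Nat.blt_eq]
    rcases hV with h | h | h | h | h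
    · exact Or.inl (Or.inl (Or.inl ((hP x).trans h)))
    · exact Or.inl (Or.inl (Or.inr ⟨Nat.pos_of_ne_zero h.1, (hP _).trans h.2⟩))
    · exact Or.inl (Or.inr ((hPv x r hr).trans h))
    · exact Or.inr ⟨Nat.pos_of_ne_zero h.1, (hPv x (r - 1) (by omega)).trans h.2⟩
    · exfalso
      have h1 := cn2_rkU.1 h.2.2.1
      have h3 := hT.sep _ h1
      rw [Nat.sub_add_cancel (Nat.pos_of_ne_zero h.2.1), cn2_rkU.1 hk] at h3
      exact absurd h3 (by decide)
  · -- lower rows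
    rw [hk] at hV
    obtain ⟨hi0, hTi⟩ := cn2_rkL hk
    have e0 : 4 + 6 * i + r = 4 + 6 * (i - 1) + (6 + r) := by omega
    rw [e0]
    refine pair (i - 1) (6 + r) hTi (by omega) ?_
    have hP : ∀ x, cn2Ph x (6 + r) = hE .L r x := fun x => by
      unfold cn2Ph
      rw [if_neg (by omega), show 6 + r - 6 = r by omega]
    have hPv : ∀ x r', cn2Pv ((i - 1) % 2) x (6 + r') = vE .L i r' x := fun x r' => by
      unfold cn2Pv
      rw [if_neg (by omega), show 6 + r' - 6 = r' by omega, ← cn2_vE',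
        Nat.sub_add_cancel (Nat.pos_of_ne_zero hi0)]
    unfold cn2Vt
    simp only [Bool.or_eq_true, Bool.and_eq_true, Nat.beq_eq, Nat.blt_eq]
    rcases hV with h | h | h | h | h
    · exact Or.inl (Or.inl (Or.inl ((hP x).trans h)))
    · exact Or.inl (Or.inl (Or.inr ⟨Nat.pos_of_ne_zero h.1, (hP _).trans h.2⟩))
    · exact Or.inl (Or.inr ((hPv x r).trans h))
    · refine Or.inr ⟨by omega, ?_⟩
      rw [show 6 + r - 1 = 6 + (r - 1) by omega]
      exact (hPv x (r - 1)).trans h.2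
    · refine Or.inr ⟨by omega, ?_⟩
      obtain ⟨rfl, _, _, h4⟩ := h
      unfold cn2Pv
      rw [show 6 + 0 - 1 = 5 by rfl, if_pos (by omega), ← cn2_vE]
      exact h4

end Pool.Agent.Helper96.SE
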